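import Pool.Agent.H34.Mar.Poly

/-!
# From exponential sums to functions on the circle, one jump allowed
-/

set_option autoImplicit false

open Finset Filter Topology Polynomial MeasureTheory
open scoped ComplexConjugate

namespace Pool.Agent.H34.Mar

theorem Null.shift {z : ℕ → ℂ} (h : Null z) (hz : ‖z 0‖ ≤ 1) : Null (fun n => z (n + 1)) := by
  intro ε hε
  obtain ⟨N0, hN0⟩ := h (ε / 4) (by positivity)
  obtain ⟨N1, hN1⟩ := exists_nat_ge (2 / ε)
  refine ⟨max N0 (N1 + 1), fun N hN => ?_⟩
  have h1 := hN0 (N + 1) (by have := le_max_left N0 (N1 + 1); omega)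
  rw [Finset.sum_range_succ'] at h1
  have h2 : ‖∑ n ∈ range N, z (n + 1)‖ ≤ ‖∑ n ∈ range N, z (n + 1) + z 0‖ + ‖z 0‖ := by
    have := norm_sub_le (∑ n ∈ range N, z (n + 1) + z 0) (z 0)
    rwa [add_sub_cancel_right] at this
  have h3 : (N1 : ℝ) + 1 ≤ N := by
    have : N1 + 1 ≤ N := le_trans (le_max_right N0 (N1 + 1)) hN
    exact_mod_cast this
  have h4 : 2 / ε ≤ N := by linarith
  rw [div_le_iff₀ hε] at h4
  push_cast at h1
  have h5 : (1 : ℝ) ≤ N := by
    have : (0 : ℝ) ≤ N1 := Nat.cast_nonneg _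
    linarith
  nlinarith

/-- the averages are continuous in the test function -/
theorem null_closure {X : Type*} [TopologicalSpace X] [CompactSpace X] (w : ℕ → ℂ)
    (hw : ∀ n, ‖w n‖ ≤ 1) (y : ℕ → X) (c : C(X, ℂ) → ℂ)
    (hadd : ∀ F G, c (F + G) = c F + c G) (hsmul : ∀ (a : ℂ) (F : C(X, ℂ)), c (a • F) = a * c F)
    (hc : ∀ F, ‖c F‖ ≤ ‖F‖) (s : Set C(X, ℂ))
    (hs : (Submodule.span ℂ s).topologicalClosure = ⊤)
    (h : ∀ F ∈ s, Null (fun n => w n * F (y n) - c F)) (F : C(X, ℂ)) :
    Null (fun n => w n * F (y n) - c F) := by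
  have hspan : ∀ G ∈ Submodule.span ℂ s, Null (fun n => w n * G (y n) - c G) := by
    intro G hG
    induction hG using Submodule.span_induction with
    | mem x hx => exact h x hx
    | zero =>
      refine Null.of_bdd 0 fun N => ?_
      have h0 : c 0 = 0 := by
        have := hsmul 0 0
        rwa [zero_smul, zero_mul] at this
      simp [h0]
    | add G1 G2 _ _ h1 h2 =>
      refine (h1.add h2).congr fun n => ?_
      rw [hadd, ContinuousMap.add_apply]
      ring
    | smul a G1 _ h1 =>
      refine (h1.const_mul a).congr fun n => ?_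
      rw [hsmul, ContinuousMap.smul_apply, smul_eq_mul]
      ring
  intro ε hε
  have hmem : F ∈ (Submodule.span ℂ s).topologicalClosure := by rw [hs]; trivial
  rw [← SetLike.mem_coe, Submodule.topologicalClosure_coe, Metric.mem_closure_iff] at hmem
  obtain ⟨G, hG, hFG⟩ := hmem (ε / 4) (by positivity)
  rw [dist_eq_norm] at hFG
  obtain ⟨N0, hN0⟩ := hspan G hG (ε / 2) (by positivity)
  refine ⟨N0, fun N hN => ?_⟩
  have h1 := hN0 N hN
  have hcs : c F = c G + c (F - G) := by
    rw [← hadd]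
    congr 1
    abel
  have h2 : ∀ n, w n * F (y n) - c F = (w n * G (y n) - c G) + (w n * (F - G) (y n) - c (F - G)) := by
    intro n
    rw [hcs, ContinuousMap.sub_apply]
    ring
  have h3 : ‖∑ n ∈ range N, (w n * (F - G) (y n) - c (F - G))‖ ≤ ε / 2 * N := by
    calc ‖∑ n ∈ range N, (w n * (F - G) (y n) - c (F - G))‖
        ≤ ∑ n ∈ range N, ‖w n * (F - G) (y n) - c (F - G)‖ := norm_sum_le _ _
      _ ≤ ∑ n ∈ range N, (ε / 2) := by
          refine Finset.sum_le_sum fun n _ => ?_
          have a1 := norm_sub_le (w n * (F - G) (y n)) (c (F - G))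
          have a2 : ‖w n * (F - G) (y n)‖ ≤ ‖F - G‖ := by
            rw [norm_mul]
            have b1 := (F - G).norm_coe_le_norm (y n)
            have b2 := hw n
            have b3 := norm_nonneg ((F - G) (y n))
            have b4 := norm_nonneg (w n)
            nlinarith
          have a3 := hc (F - G)
          linarith
      _ = ε / 2 * N := by
          rw [Finset.sum_const, card_range, nsmul_eq_mul]
          ring
  rw [Finset.sum_congr rfl fun n _ => h2 n, Finset.sum_add_distrib]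
  refine (norm_add_le _ _).trans ?_
  have h4 : ε / 2 * (N : ℝ) + ε / 2 * N = ε * N := by ring
  linarith

/-- `e` as a character of the circle -/
theorem fourier_eq_e (k : ℤ) (y : ℝ) : fourier k (y : UnitAddCircle) = e (k * y) := by
  rw [fourier_coe_apply]
  unfold e
  congr 1
  push_cast
  ring

theorem integral_norm_le {X : Type*} [TopologicalSpace X] [CompactSpace X] [MeasurableSpace X]
    [BorelSpace X] (μ : Measure X) [IsProbabilityMeasure μ] (F : C(X, ℂ)) : ‖∫ t, F t ∂μ‖ ≤ ‖F‖ := by
  have := norm_integral_le_of_norm_le_const (μ := μ) (f := fun t => F t) (C := ‖F‖)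
    (Eventually.of_forall fun t => F.norm_coe_le_norm t)
  simpa using this

theorem integrable_cont {X : Type*} [TopologicalSpace X] [CompactSpace X] [MeasurableSpace X]
    [BorelSpace X] (μ : Measure X) [IsProbabilityMeasure μ] (F : C(X, ℂ)) :
    Integrable (fun t => F t) μ := by
  refine Integrable.mono' (g := fun _ => ‖F‖) (integrable_const _) ?_ ?_
  · exact F.continuous.measurable.aestronglyMeasurable
  · exact Eventually.of_forall fun t => F.norm_coe_le_norm t

/-- weighted averages against continuous functions on the circle, weight uncorrelated -/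
theorem null_mul_cont (w : ℕ → ℂ) (hw : ∀ n, ‖w n‖ ≤ 1) (y : ℕ → ℝ)
    (h : ∀ k : ℤ, Null (fun n => w n * e (k * y n))) (F : C(UnitAddCircle, ℂ)) :
    Null (fun n => w n * F (y n)) := by
  have h1 := null_closure w hw (fun n => (y n : UnitAddCircle)) (fun _ => 0) (by simp) (by simp)
    (fun F => by simp) (Set.range fourier) span_fourier_closure_eq_top (by
      rintro _ ⟨k, rfl⟩
      refine (h k).congr fun n => ?_
      rw [fourier_eq_e, sub_zero]) F
  refine h1.congr fun n => ?_
  rw [sub_zero]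

/-- the Haar probability measure of the circle -/
noncomputable abbrev haar : Measure UnitAddCircle := AddCircle.haarAddCircle

theorem integral_fourier {k : ℤ} (hk : k ≠ 0) : ∫ t : UnitAddCircle, fourier k t ∂haar = 0 := by
  have h1 : fourierCoeff (T := (1 : ℝ)) (fourier k) 0 = 0 := by
    rw [fourierCoeff_fourier, Pi.single_eq_of_ne (Ne.symm hk)]
  unfold fourierCoeff at h1
  simpa using h1

/-- equidistribution on the circle -/
theorem null_cont (y : ℕ → ℝ) (h : ∀ k : ℤ, k ≠ 0 → Null (fun n => e (k * y n)))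
    (F : C(UnitAddCircle, ℂ)) :
    Null (fun n => 1 * F (y n) - ∫ t : UnitAddCircle, F t ∂haar) := by
  refine null_closure (fun _ => 1) (by simp) (fun n => (y n : UnitAddCircle))
    (fun F => ∫ t : UnitAddCircle, F t ∂haar) (fun F G => ?_) (fun a F => ?_)
    (fun F => integral_norm_le _ F) (Set.range fourier) span_fourier_closure_eq_top ?_ F
  · simp only [ContinuousMap.add_apply]
    exact integral_add (integrable_cont _ F) (integrable_cont _ G)
  · simp only [ContinuousMap.smul_apply, smul_eq_mul]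
    exact integral_const_mul _ _
  · rintro _ ⟨k, rfl⟩
    by_cases hk : k = 0
    · subst hk
      refine Null.of_bdd 0 fun N => ?_
      simp
    · refine (h k hk).congr fun n => ?_
      rw [fourier_eq_e, integral_fourier hk, sub_zero, one_mul]

/-- the bump `(1 - 2x)^(2K)` on the circle -/
noncomputable def bumpR (K : ℕ) (x : ℝ) : ℝ := (1 - 2 * x) ^ (2 * K)

theorem bumpR_nonneg (K : ℕ) (x : ℝ) : 0 ≤ bumpR K x := by
  unfold bumpR
  rw [pow_mul]
  positivity

theorem bumpR_le_one (K : ℕ) {x : ℝ} (h0 : 0 ≤ x) (h1 : x ≤ 1) : bumpR K x ≤ 1 := by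
  unfold bumpR
  rw [pow_mul]
  refine pow_le_one₀ (by positivity) ?_
  nlinarith

noncomputable def bump (K : ℕ) : C(UnitAddCircle, ℂ) where
  toFun := AddCircle.liftIco 1 0 (fun x => ((bumpR K x : ℝ) : ℂ))
  continuous_toFun := by
    refine AddCircle.liftIco_continuous ?_ ?_
    · unfold bumpR
      norm_num
    · unfold bumpR
      fun_prop

noncomputable def cut (K : ℕ) (b : ℝ) : C(UnitAddCircle, ℂ) where
  toFun := AddCircle.liftIco 1 0 (fun x => ((1 - bumpR K x : ℝ) : ℂ) * e (-(b * x)))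
  continuous_toFun := by
    refine AddCircle.liftIco_continuous ?_ ?_
    · unfold bumpR
      norm_num
    · unfold bumpR e
      fun_prop

theorem coe_fract (y : ℝ) : ((Int.fract y : ℝ) : UnitAddCircle) = (y : UnitAddCircle) := by
  rw [Int.fract, AddCircle.coe_sub]
  have : ((⌊y⌋ : ℝ) : UnitAddCircle) = 0 := by
    rw [AddCircle.coe_eq_zero_iff]
    exact ⟨⌊y⌋, by simp⟩
  rw [this, sub_zero]

theorem bump_apply (K : ℕ) (y : ℝ) : bump K (y : UnitAddCircle) = ((bumpR K (Int.fract y) : ℝ) : ℂ) := by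
  rw [← coe_fract]
  exact AddCircle.liftIco_zero_coe_apply (p := (1 : ℝ))
    (f := fun x => ((bumpR K x : ℝ) : ℂ)) ⟨Int.fract_nonneg y, Int.fract_lt_one y⟩

theorem cut_apply (K : ℕ) (b y : ℝ) : cut K b (y : UnitAddCircle) =
    ((1 - bumpR K (Int.fract y) : ℝ) : ℂ) * e (-(b * Int.fract y)) := by
  rw [← coe_fract]
  exact AddCircle.liftIco_zero_coe_apply (p := (1 : ℝ))
    (f := fun x => ((1 - bumpR K x : ℝ) : ℂ) * e (-(b * x)))
    ⟨Int.fract_nonneg y, Int.fract_lt_one y⟩

theorem integral_haar (F : C(UnitAddCircle, ℂ)) :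
    ∫ t : UnitAddCircle, F t ∂haar = ∫ x in (0 : ℝ)..1, F (x : UnitAddCircle) := by
  have h1 := UnitAddCircle.intervalIntegral_preimage 0 (fun t => F t)
  rw [zero_add] at h1
  rw [h1]
  have h2 := AddCircle.integral_haarAddCircle (T := (1 : ℝ)) (f := fun t => F t)
  rw [inv_one, one_smul] at h2
  exact h2

theorem bump_Icc (K : ℕ) {x : ℝ} (hx : x ∈ Set.Icc (0 : ℝ) 1) :
    bump K (x : UnitAddCircle) = ((bumpR K x : ℝ) : ℂ) := by
  rcases eq_or_lt_of_le hx.2 with h | h
  · subst h
    have : ((1 : ℝ) : UnitAddCircle) = ((0 : ℝ) : UnitAddCircle) := by simp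
    rw [this, bump_apply, Int.fract_zero]
    unfold bumpR
    norm_num
  · rw [bump_apply, Int.fract_eq_self.2 ⟨hx.1, h⟩]

theorem cut_Icc (K : ℕ) (b : ℝ) {x : ℝ} (hx : x ∈ Set.Icc (0 : ℝ) 1) :
    cut K b (x : UnitAddCircle) = ((1 - bumpR K x : ℝ) : ℂ) * e (-(b * x)) := by
  rcases eq_or_lt_of_le hx.2 with h | h
  · subst h
    have : ((1 : ℝ) : UnitAddCircle) = ((0 : ℝ) : UnitAddCircle) := by simp
    rw [this, cut_apply, Int.fract_zero]
    unfold bumpR
    norm_num
  · rw [cut_apply, Int.fract_eq_self.2 ⟨hx.1, h⟩]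

theorem integral_bumpR (K : ℕ) : ∫ x in (0 : ℝ)..1, bumpR K x = 1 / (2 * K + 1) := by
  unfold bumpR
  have h := intervalIntegral.integral_comp_sub_mul (a := (0 : ℝ)) (b := 1)
    (fun x : ℝ => x ^ (2 * K)) (two_ne_zero) 1
  rw [h, integral_pow]
  have e1 : (2 * K + 1) % 2 = 1 := by omega
  have e2 : (-1 : ℝ) ^ (2 * K + 1) = -1 := by
    rw [pow_succ, pow_mul]
    norm_num
  norm_num
  rw [e2]
  have h3 : (2 * (K : ℝ) + 1) ≠ 0 := by positivity
  field_simp
  norm_num

theorem integral_bump (K : ℕ) : ∫ t : UnitAddCircle, bump K t ∂haar = ((1 / (2 * K + 1) : ℝ) : ℂ) := by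
  rw [integral_haar, ← integral_bumpR, ← intervalIntegral.integral_ofReal]
  refine intervalIntegral.integral_congr fun x hx => ?_
  rw [Set.uIcc_of_le zero_le_one] at hx
  exact bump_Icc K hx

theorem continuous_e : Continuous e := by
  unfold e
  fun_prop

theorem continuous_bumpR (K : ℕ) : Continuous (bumpR K) := by
  unfold bumpR
  fun_prop

theorem integral_cut_sub (K : ℕ) (b : ℝ) :
    ‖(∫ x in (0 : ℝ)..1, e (-(b * x))) - ∫ t : UnitAddCircle, cut K b t ∂haar‖ ≤
      1 / (2 * K + 1) := by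
  have h1 : ∫ t : UnitAddCircle, cut K b t ∂haar =
      ∫ x in (0 : ℝ)..1, ((1 - bumpR K x : ℝ) : ℂ) * e (-(b * x)) := by
    rw [integral_haar]
    refine intervalIntegral.integral_congr fun x hx => ?_
    rw [Set.uIcc_of_le zero_le_one] at hx
    exact cut_Icc K b hx
  have c1 : Continuous (fun x : ℝ => e (-(b * x))) := continuous_e.comp (by fun_prop)
  have c2 : Continuous (fun x : ℝ => ((1 - bumpR K x : ℝ) : ℂ) * e (-(b * x))) := by
    refine Continuous.mul ?_ c1
    exact Complex.continuous_ofReal.comp (continuous_const.sub (continuous_bumpR K))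
  rw [h1, ← intervalIntegral.integral_sub (c1.intervalIntegrable _ _) (c2.intervalIntegrable _ _)]
  rw [← integral_bumpR]
  refine intervalIntegral.norm_integral_le_of_norm_le zero_le_one ?_
    ((continuous_bumpR K).intervalIntegrable _ _)
  refine Eventually.of_forall fun x _ => ?_
  have : e (-(b * x)) - ((1 - bumpR K x : ℝ) : ℂ) * e (-(b * x)) =
      ((bumpR K x : ℝ) : ℂ) * e (-(b * x)) := by
    push_cast
    ring
  rw [this, norm_mul, norm_e, mul_one, Complex.norm_real, Real.norm_of_nonneg (bumpR_nonneg K x)]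

/-- test functions with one jump -/
theorem null_jump (w : ℕ → ℂ) (hw : ∀ n, ‖w n‖ ≤ 1) (y : ℕ → ℝ)
    (hE : ∀ k : ℤ, k ≠ 0 → Null (fun n => e (k * y n))) (c : ℂ) (hc : ‖c‖ ≤ 1)
    (h : ∀ F : C(UnitAddCircle, ℂ), Null (fun n => w n * F (y n) - c * ∫ t : UnitAddCircle, F t ∂haar))
    (b : ℝ) :
    Null (fun n => w n * e (-(b * Int.fract (y n))) - c * ∫ x in (0 : ℝ)..1, e (-(b * x))) := by
  intro ε hε
  obtain ⟨K, hK⟩ := exists_nat_ge (4 / ε)
  have hK1 : (1 : ℝ) / (2 * K + 1) ≤ ε / 4 := by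
    rw [div_le_iff₀ (by positivity)]
    rw [div_le_iff₀ hε] at hK
    have : (0 : ℝ) ≤ K := Nat.cast_nonneg _
    nlinarith
  obtain ⟨N0, hN0⟩ := h (cut K b) (ε / 4) (by positivity)
  obtain ⟨N1, hN1⟩ := null_cont y hE (bump K) (ε / 4) (by positivity)
  refine ⟨max N0 N1, fun N hN => ?_⟩
  have a0 := hN0 N (le_trans (le_max_left _ _) hN)
  have a1 := hN1 N (le_trans (le_max_right _ _) hN)
  set I := ∫ x in (0 : ℝ)..1, e (-(b * x)) with hI
  set J := ∫ t : UnitAddCircle, cut K b t ∂haar with hJ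
  have hsplit : ∀ n, w n * e (-(b * Int.fract (y n))) - c * I =
      (w n * cut K b (y n) - c * J) +
        (w n * (((bumpR K (Int.fract (y n)) : ℝ) : ℂ) * e (-(b * Int.fract (y n)))) -
          c * (I - J)) := by
    intro n
    rw [cut_apply]
    push_cast
    ring
  rw [Finset.sum_congr rfl fun n _ => hsplit n, Finset.sum_add_distrib]
  have b1 : ‖∑ n ∈ range N, (w n * (((bumpR K (Int.fract (y n)) : ℝ) : ℂ) *
      e (-(b * Int.fract (y n)))) - c * (I - J))‖ ≤
      ∑ n ∈ range N, bumpR K (Int.fract (y n)) + N * (ε / 4) := by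
    calc ‖∑ n ∈ range N, (w n * (((bumpR K (Int.fract (y n)) : ℝ) : ℂ) *
      e (-(b * Int.fract (y n)))) - c * (I - J))‖
        ≤ ∑ n ∈ range N, ‖w n * (((bumpR K (Int.fract (y n)) : ℝ) : ℂ) *
      e (-(b * Int.fract (y n)))) - c * (I - J)‖ := norm_sum_le _ _
      _ ≤ ∑ n ∈ range N, (bumpR K (Int.fract (y n)) + ε / 4) := by
          refine Finset.sum_le_sum fun n _ => ?_
          refine (norm_sub_le _ _).trans ?_
          refine add_le_add ?_ ?_
          · rw [norm_mul, norm_mul, norm_e, mul_one, Complex.norm_real,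
              Real.norm_of_nonneg (bumpR_nonneg K _)]
            have := hw n
            have h0 := bumpR_nonneg K (Int.fract (y n))
            nlinarith
          · rw [norm_mul]
            have h2 := (integral_cut_sub K b).trans hK1
            have h3 := norm_nonneg (I - J)
            have h4 := norm_nonneg c
            nlinarith
      _ = ∑ n ∈ range N, bumpR K (Int.fract (y n)) + N * (ε / 4) := by
          rw [Finset.sum_add_distrib, Finset.sum_const, card_range, nsmul_eq_mul]
  have b2 : ∑ n ∈ range N, bumpR K (Int.fract (y n)) ≤ N * (ε / 4) + ε / 4 * N := by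
    have e1 : ∑ n ∈ range N, (1 * bump K (y n) - ∫ t : UnitAddCircle, bump K t ∂haar) =
        ((∑ n ∈ range N, bumpR K (Int.fract (y n)) - N * (1 / (2 * K + 1)) : ℝ) : ℂ) := by
      rw [integral_bump, Finset.sum_sub_distrib, Finset.sum_const, card_range, nsmul_eq_mul]
      push_cast
      congr 1
      refine Finset.sum_congr rfl fun n _ => ?_
      rw [bump_apply, one_mul]
    rw [e1, Complex.norm_real, Real.norm_eq_abs] at a1
    have e2 := (abs_le.1 a1).2
    have e3 : (N : ℝ) * (1 / (2 * K + 1)) ≤ N * (ε / 4) :=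
      mul_le_mul_of_nonneg_left hK1 (Nat.cast_nonneg _)
    linarith
  refine (norm_add_le _ _).trans ?_
  have b3 : ε / 4 * (N : ℝ) + ((N * (ε / 4) + ε / 4 * N) + N * (ε / 4)) = ε * N := by ring
  linarith

end Pool.Agent.H34.Mar
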