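import Pool.Agent.H34.Mar.Circle

/-!
# Exponential sums along integer parts of polynomials
-/

set_option autoImplicit false

open Finset Filter Topology Polynomial MeasureTheory
open scoped ComplexConjugate

namespace Pool.Agent.H34.Mar

theorem not_irrational_iff (x : ℝ) : ¬ Irrational x ↔ ∃ c : ℚ, x = (c : ℝ) := by
  unfold Irrational
  push Not
  constructor
  · rintro ⟨c, hc⟩
    exact ⟨c, hc.symm⟩
  · rintro ⟨c, hc⟩
    exact ⟨c, hc.symm⟩

/-- if all coefficients of positive degree are rational then `P = c + R` -/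
theorem exists_const_add (P : ℝ[X]) (h : ∀ j, 1 ≤ j → ∃ c : ℚ, P.coeff j = (c : ℝ)) :
    ∃ R : ℚ[X], P = C (P.coeff 0) + R.map (algebraMap ℚ ℝ) := by
  obtain ⟨R, hR⟩ := exists_rat_poly (P - C (P.coeff 0)) (by
    intro i
    rw [coeff_sub]
    rcases Nat.eq_zero_or_pos i with h0 | h0
    · subst h0
      exact ⟨0, by simp⟩
    · obtain ⟨c, hc⟩ := h i h0
      refine ⟨c, ?_⟩
      rw [coeff_C, if_neg (by omega), sub_zero, hc])
  refine ⟨R, ?_⟩
  rw [hR]
  ring

theorem e_floor (g y : ℝ) : e (g * (⌊y⌋ : ℝ)) = e (g * y) * e (-(g * Int.fract y)) := by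
  rw [← e_add]
  congr 1
  rw [Int.fract]
  ring

theorem leadingCoeff_ne (P : ℝ[X]) (hP : 0 < P.natDegree) : P.leadingCoeff ≠ 0 := by
  intro h0
  rw [leadingCoeff_eq_zero] at h0
  rw [h0, natDegree_zero] at hP
  exact absurd hP (lt_irrefl 0)

/-- the sums vanish when `P` is rational up to a constant -/
theorem null_floor_rat (P : ℝ[X]) (hP : 0 < P.natDegree)
    (hrat : ∀ j, 1 ≤ j → ∃ c : ℚ, P.coeff j = (c : ℝ)) (g : ℝ) (hg : Irrational g) :
    Null (fun n => e (g * (⌊P.eval (n : ℝ)⌋ : ℝ))) := by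
  obtain ⟨R, hR⟩ := exists_const_add P hrat
  obtain ⟨q, hq, hper⟩ := exists_period R
  refine Null.residues (fun n => (norm_e _).le) q hq fun r _ => ?_
  obtain ⟨c1, c2⟩ := comp_lin P q hq r
  have hlead := leadingCoeff_ne P hP
  have hirr : Irrational (C g * P.comp (C (q : ℝ) * X + C (r : ℝ))).leadingCoeff := by
    rw [leadingCoeff_mul, leadingCoeff_C, c2]
    obtain ⟨c, hc⟩ := hrat P.natDegree hP
    have hc' : P.leadingCoeff = (c : ℝ) := hc
    rw [hc']
    have h1 : (c : ℝ) * (q : ℝ) ^ P.natDegree = ((c * (q : ℚ) ^ P.natDegree : ℚ) : ℝ) := by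
      push_cast
      ring
    rw [h1]
    refine hg.mul_ratCast ?_
    have hc0 : c ≠ 0 := by
      intro h0
      rw [h0, Rat.cast_zero] at hc'
      exact hlead hc'
    have hq0 : (q : ℚ) ≠ 0 := by
      have : q ≠ 0 := by omega
      exact_mod_cast this
    exact mul_ne_zero hc0 (pow_ne_zero _ hq0)
  have hdeg : (C g * P.comp (C (q : ℝ) * X + C (r : ℝ))).natDegree = P.natDegree := by
    rw [natDegree_C_mul hg.ne_zero, c1]
  have hnull := weyl_lead (P.natDegree - 1) (C g * P.comp (C (q : ℝ) * X + C (r : ℝ)))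
    (by rw [hdeg]; omega) hirr
  refine (hnull.const_mul (e (-(g * Int.fract (P.eval (r : ℝ)))))).congr fun m => ?_
  obtain ⟨k, hk⟩ := hper r m
  have e1 : P.eval (((q * m + r : ℕ) : ℝ)) = P.eval (r : ℝ) + k := by
    rw [hR, eval_add, eval_add, hk, eval_C, eval_C]
    ring
  have e2 : Int.fract (P.eval (((q * m + r : ℕ) : ℝ))) = Int.fract (P.eval (r : ℝ)) := by
    rw [e1, Int.fract_add_intCast]
  show e (g * (⌊P.eval (((q * m + r : ℕ) : ℝ))⌋ : ℝ)) = _
  rw [e_floor, e2, mul_comm]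
  congr 2
  rw [eval_mul, eval_C, eval_comp]
  simp only [eval_add, eval_mul, eval_C, eval_X]
  push_cast
  ring

/-- the values of `P` equidistribute modulo one -/
theorem null_values (P : ℝ[X]) (hirr : ¬ ∀ j, 1 ≤ j → ∃ c : ℚ, P.coeff j = (c : ℝ)) (k : ℤ)
    (hk : k ≠ 0) : Null (fun n : ℕ => e (k * P.eval (n : ℝ))) := by
  push Not at hirr
  obtain ⟨j, hj1, hj⟩ := hirr
  have hj' : Irrational (P.coeff j) := by
    by_contra h
    obtain ⟨c, hc⟩ := (not_irrational_iff _).1 h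
    exact hj c hc
  refine (weyl (C (k : ℝ) * P) ⟨j, hj1, ?_⟩).congr fun n => ?_
  · rw [coeff_C_mul]
    exact hj'.intCast_mul hk
  · rw [eval_mul, eval_C]

/-- the sums vanish when no `g + k` makes `P` rational up to a constant -/
theorem null_floor_irr (P : ℝ[X]) (hirr : ¬ ∀ j, 1 ≤ j → ∃ c : ℚ, P.coeff j = (c : ℝ)) (g : ℝ)
    (hg : ∀ k : ℤ, ¬ ∀ j, 1 ≤ j → ∃ c : ℚ, (C (g + k) * P).coeff j = (c : ℝ)) :
    Null (fun n => e (g * (⌊P.eval (n : ℝ)⌋ : ℝ))) := by
  have hW : ∀ k : ℤ, Null (fun n : ℕ => e (g * P.eval (n : ℝ)) * e (k * P.eval (n : ℝ))) := by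
    intro k
    have h1 := hg k
    push Not at h1
    obtain ⟨j, hj1, hj⟩ := h1
    have hj' : Irrational ((C (g + k) * P).coeff j) := by
      by_contra h
      obtain ⟨c, hc⟩ := (not_irrational_iff _).1 h
      exact hj c hc
    refine (weyl (C (g + k) * P) ⟨j, hj1, hj'⟩).congr fun n => ?_
    rw [eval_mul, eval_C, ← e_add]
    congr 1
    ring
  have h1 : ∀ F : C(UnitAddCircle, ℂ), Null (fun n : ℕ => e (g * P.eval (n : ℝ)) *
      F ((P.eval (n : ℝ) : ℝ) : UnitAddCircle) - 0 * ∫ t : UnitAddCircle, F t ∂haar) := by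
    intro F
    refine (null_mul_cont (fun n : ℕ => e (g * P.eval (n : ℝ))) (fun n => (norm_e _).le)
      (fun n : ℕ => P.eval (n : ℝ)) hW F).congr fun n => ?_
    rw [zero_mul, sub_zero]
  have h2 := null_jump (fun n : ℕ => e (g * P.eval (n : ℝ))) (fun n => (norm_e _).le)
    (fun n : ℕ => P.eval (n : ℝ)) (fun k hk => null_values P hirr k hk) 0 (by simp) h1 g
  refine h2.congr fun n => ?_
  rw [zero_mul, sub_zero, e_floor]

theorem integral_e_ne_zero (b : ℝ) (hb : Irrational b) : ∫ x in (0 : ℝ)..1, e (-(b * x)) ≠ 0 := by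
  unfold e
  have h0 : (-(2 * Real.pi * b * Complex.I) : ℂ) ≠ 0 := by
    have h1 : (2 * Real.pi * b : ℝ) ≠ 0 := by
      have := Real.pi_ne_zero
      have := hb.ne_zero
      positivity
    rw [neg_ne_zero]
    refine mul_ne_zero ?_ Complex.I_ne_zero
    exact_mod_cast h1
  have h2 : ∀ x : ℝ, Complex.exp (((2 * Real.pi * (-(b * x)) : ℝ) : ℂ) * Complex.I) =
      Complex.exp ((-(2 * Real.pi * b * Complex.I) : ℂ) * x) := by
    intro x
    congr 1
    push_cast
    ring
  simp only [h2]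
  rw [integral_exp_mul_complex h0]
  refine div_ne_zero ?_ h0
  rw [sub_ne_zero, Complex.ofReal_one, mul_one, Complex.ofReal_zero, mul_zero, Complex.exp_zero]
  intro h3
  rw [Complex.exp_eq_one_iff] at h3
  obtain ⟨n, hn⟩ := h3
  have h4 : (-(2 * Real.pi * b * Complex.I) : ℂ) = ((-b : ℝ) : ℂ) * (2 * Real.pi * Complex.I) := by
    push_cast
    ring
  rw [h4] at hn
  have h5 : (2 * Real.pi * Complex.I : ℂ) ≠ 0 := Complex.two_pi_I_ne_zero
  have h6 := mul_right_cancel₀ h5 hn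
  have h7 : (-b : ℝ) = n := by exact_mod_cast h6
  exact (hb.neg).ne_int n h7

/-- if `b P` is rational up to a constant, with `b` irrational, and `P` itself is not, then for
some multiple of `b` the sums do not vanish -/
theorem bad_floor (P : ℝ[X]) (hirr : ¬ ∀ j, 1 ≤ j → ∃ c : ℚ, P.coeff j = (c : ℝ)) (b : ℝ)
    (hb : Irrational b) (hbP : ∀ j, 1 ≤ j → ∃ c : ℚ, (C b * P).coeff j = (c : ℝ)) :
    ∃ q : ℕ, 1 ≤ q ∧ ∃ I : ℂ, I ≠ 0 ∧
      Null (fun n => e ((q * b) * (⌊P.eval (n : ℝ)⌋ : ℝ)) - I) := by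
  obtain ⟨R, hR⟩ := exists_const_add (C b * P) hbP
  obtain ⟨q, T, hq, hT⟩ := exists_int_poly R
  have hqb : Irrational ((q : ℝ) * b) := hb.natCast_mul (by omega)
  have h1 : ∀ F : C(UnitAddCircle, ℂ), Null (fun n : ℕ => 1 *
      F ((P.eval (n : ℝ) : ℝ) : UnitAddCircle) - 1 * ∫ t : UnitAddCircle, F t ∂haar) := by
    intro F
    refine (null_cont (fun n : ℕ => P.eval (n : ℝ)) (fun k hk => null_values P hirr k hk)
      F).congr fun n => ?_
    rw [one_mul, one_mul]
  have h2 := null_jump (fun _ : ℕ => 1) (fun n => by simp)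
    (fun n : ℕ => P.eval (n : ℝ)) (fun k hk => null_values P hirr k hk) 1 (by simp) h1 (q * b)
  set c := (C b * P).coeff 0 with hc
  refine ⟨q, hq, e (q * c) * ∫ x in (0 : ℝ)..1, e (-(((q : ℝ) * b) * x)),
    mul_ne_zero ?_ (integral_e_ne_zero _ hqb), ?_⟩
  · intro h0
    have := norm_e (q * c)
    rw [h0, norm_zero] at this
    exact zero_ne_one this
  · refine (h2.const_mul (e (q * c))).congr fun n => ?_
    rw [e_floor]
    have e1 : (q : ℝ) * b * P.eval (n : ℝ) = q * c + ((T.eval (n : ℤ) : ℤ) : ℝ) := by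
      have h3 := hT (n : ℝ)
      have h4 : (T.map (Int.castRingHom ℝ)).eval ((n : ℝ)) = ((T.eval (n : ℤ) : ℤ) : ℝ) := by
        have := Polynomial.eval_intCast_map (Int.castRingHom ℝ) T (n : ℤ)
        simpa only [Int.cast_natCast, Int.coe_castRingHom] using this
      rw [h4] at h3
      have h5 : b * P.eval (n : ℝ) = c + (R.map (algebraMap ℚ ℝ)).eval (n : ℝ) := by
        have h6 := congrArg (fun Q : ℝ[X] => Q.eval (n : ℝ)) hR
        simp only [eval_mul, eval_C, eval_add] at h6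
        exact h6
      rw [← h3, mul_assoc, h5, mul_add]
    rw [e1, e_add, e_int, mul_one]
    ring

end Pool.Agent.H34.Mar
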