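import Pool.Agent.H34.Mar.Weyl

/-!
# Weyl's theorem for polynomials with an irrational non-constant coefficient
-/

set_option autoImplicit false

open Finset Filter Topology Polynomial
open scoped ComplexConjugate

namespace Pool.Agent.H34.Mar

/-- a real polynomial all of whose coefficients are rational comes from `ℚ[X]` -/
theorem exists_rat_poly (S : ℝ[X]) (h : ∀ i, ∃ c : ℚ, S.coeff i = (c : ℝ)) :
    ∃ R : ℚ[X], R.map (algebraMap ℚ ℝ) = S := by
  have h1 : S ∈ Polynomial.lifts (algebraMap ℚ ℝ) := by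
    rw [Polynomial.lifts_iff_coeff_lifts]
    intro n
    obtain ⟨c, hc⟩ := h n
    exact ⟨c, by rw [hc]; rfl⟩
  obtain ⟨R, hR⟩ := (Polynomial.mem_lifts S).1 h1
  exact ⟨R, hR⟩

/-- common denominator -/
theorem exists_int_poly (R : ℚ[X]) : ∃ (q : ℕ) (T : ℤ[X]), 1 ≤ q ∧
    ∀ y : ℝ, (q : ℝ) * (R.map (algebraMap ℚ ℝ)).eval y = (T.map (Int.castRingHom ℝ)).eval y := by
  obtain ⟨b, hbm, hb⟩ := IsLocalization.integerNormalization_spec (nonZeroDivisors ℤ) R
  set T := IsLocalization.integerNormalization (nonZeroDivisors ℤ) R with hT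
  have hb0 : b ≠ 0 := nonZeroDivisors.ne_zero hbm
  have h1 : (T.map (Int.castRingHom ℝ)) = C ((b : ℝ)) * R.map (algebraMap ℚ ℝ) := by
    have h2 : (T.map (algebraMap ℤ ℚ)).map (algebraMap ℚ ℝ) = (b • R).map (algebraMap ℚ ℝ) := by
      rw [hb]
    rw [Polynomial.map_map] at h2
    have h3 : (algebraMap ℚ ℝ).comp (algebraMap ℤ ℚ) = Int.castRingHom ℝ :=
      RingHom.ext_int _ _
    rw [h3] at h2
    rw [h2, zsmul_eq_mul, Polynomial.map_mul, Polynomial.map_intCast]
    rfl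
  refine ⟨b.natAbs, C (SignType.sign b : ℤ) * T, ?_, fun y => ?_⟩
  · exact Int.natAbs_pos.2 hb0
  · rw [Polynomial.map_mul, h1, Polynomial.map_C, eval_mul, eval_mul, eval_C, eval_C]
    have h4 : ((b.natAbs : ℕ) : ℝ) = ((SignType.sign b : ℤ) : ℝ) * (b : ℝ) := by
      have h5 : ((b.natAbs : ℕ) : ℤ) = (SignType.sign b : ℤ) * b := by
        rw [Int.natCast_natAbs, sign_mul_self]
      have h6 := congrArg (fun t : ℤ => (t : ℝ)) h5
      simp only [Int.cast_mul] at h6
      rw [← h6, Int.cast_natCast]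
    rw [h4]
    simp only [Int.coe_castRingHom]
    ring

/-- along a residue class modulo the denominator, the values of a rational polynomial differ by
integers -/
theorem exists_period (R : ℚ[X]) : ∃ q : ℕ, 1 ≤ q ∧ ∀ r m : ℕ, ∃ k : ℤ,
    (R.map (algebraMap ℚ ℝ)).eval (((q * m + r : ℕ) : ℝ)) =
      (R.map (algebraMap ℚ ℝ)).eval (r : ℝ) + k := by
  obtain ⟨q, T, hq, hT⟩ := exists_int_poly R
  refine ⟨q, hq, fun r m => ?_⟩
  have h1 : (((q * m + r : ℕ) : ℤ) - (r : ℤ)) ∣ T.eval ((q * m + r : ℕ) : ℤ) - T.eval (r : ℤ) :=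
    Polynomial.sub_dvd_eval_sub _ _ _
  have h2 : ((q : ℤ)) ∣ T.eval ((q * m + r : ℕ) : ℤ) - T.eval (r : ℤ) := by
    refine Dvd.dvd.trans ⟨m, ?_⟩ h1
    push_cast
    ring
  obtain ⟨k, hk⟩ := h2
  refine ⟨k, ?_⟩
  have h3 := hT (((q * m + r : ℕ) : ℝ))
  have h4 := hT ((r : ℝ))
  have e1 : (T.map (Int.castRingHom ℝ)).eval (((q * m + r : ℕ) : ℝ)) =
      ((T.eval ((q * m + r : ℕ) : ℤ) : ℤ) : ℝ) := by
    have := Polynomial.eval_intCast_map (Int.castRingHom ℝ) T ((q * m + r : ℕ) : ℤ)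
    simpa only [Int.cast_natCast, Int.coe_castRingHom] using this
  have e2 : (T.map (Int.castRingHom ℝ)).eval ((r : ℝ)) = ((T.eval (r : ℤ) : ℤ) : ℝ) := by
    have := Polynomial.eval_intCast_map (Int.castRingHom ℝ) T (r : ℤ)
    simpa only [Int.cast_natCast, Int.coe_castRingHom] using this
  rw [e1] at h3
  rw [e2] at h4
  have hq0 : (q : ℝ) ≠ 0 := by
    have : q ≠ 0 := by omega
    exact_mod_cast this
  have hk' : ((T.eval ((q * m + r : ℕ) : ℤ) : ℤ) : ℝ) - ((T.eval (r : ℤ) : ℤ) : ℝ) = q * k := by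
    exact_mod_cast hk
  have h5 : (q : ℝ) * ((R.map (algebraMap ℚ ℝ)).eval (((q * m + r : ℕ) : ℝ))) =
      q * ((R.map (algebraMap ℚ ℝ)).eval (r : ℝ) + k) := by
    rw [mul_add, h3, h4]
    linarith
  exact mul_left_cancel₀ hq0 h5

/-- natDegree and leading coefficient of `Q(q X + r)` -/
theorem comp_lin (Q : ℝ[X]) (q : ℕ) (hq : 1 ≤ q) (r : ℝ) :
    (Q.comp (C (q : ℝ) * X + C r)).natDegree = Q.natDegree ∧
      (Q.comp (C (q : ℝ) * X + C r)).leadingCoeff = Q.leadingCoeff * (q : ℝ) ^ Q.natDegree := by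
  have hq0 : (q : ℝ) ≠ 0 := by
    have : q ≠ 0 := by omega
    exact_mod_cast this
  have h1 : (C (q : ℝ) * X + C r).natDegree = 1 := natDegree_linear hq0
  have h2 : (C (q : ℝ) * X + C r).leadingCoeff = (q : ℝ) := leadingCoeff_linear hq0
  constructor
  · rw [natDegree_comp, h1, mul_one]
  · rw [leadingCoeff_comp (by rw [h1]; norm_num), h2]

/-- Weyl's theorem -/
theorem weyl (Q : ℝ[X]) (h : ∃ j, 1 ≤ j ∧ Irrational (Q.coeff j)) :
    Null (fun n => e (Q.eval (n : ℝ))) := by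
  classical
  -- the largest such `j`
  have hfin : ∃ j, (1 ≤ j ∧ Irrational (Q.coeff j)) ∧ ∀ i, j < i → ¬ (Irrational (Q.coeff i)) := by
    obtain ⟨j0, hj0⟩ := h
    have hbd : ∀ i, (1 ≤ i ∧ Irrational (Q.coeff i)) → i ≤ Q.natDegree := by
      intro i hi
      by_contra hcon
      push Not at hcon
      have := hi.2
      rw [coeff_eq_zero_of_natDegree_lt hcon] at this
      exact not_irrational_zero this
    set j := Nat.findGreatest (fun i => 1 ≤ i ∧ Irrational (Q.coeff i)) Q.natDegree with hj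
    have h1 : 1 ≤ j ∧ Irrational (Q.coeff j) :=
      Nat.findGreatest_spec (P := fun i => 1 ≤ i ∧ Irrational (Q.coeff i)) (hbd j0 hj0) hj0
    refine ⟨j, h1, fun i hi hirr => ?_⟩
    have h2 : 1 ≤ i ∧ Irrational (Q.coeff i) := ⟨by omega, hirr⟩
    have h3 := Nat.le_findGreatest (P := fun i => 1 ≤ i ∧ Irrational (Q.coeff i)) (hbd i h2) h2
    omega
  obtain ⟨j, ⟨hj1, hjirr⟩, hhigh⟩ := hfin
  -- split
  set T : ℝ[X] := ∑ i ∈ range (j + 1), C (Q.coeff i) * X ^ i with hT
  set S : ℝ[X] := Q - T with hS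
  have hTc : ∀ i, T.coeff i = if i ≤ j then Q.coeff i else 0 := by
    intro i
    rw [hT, finsetSum_coeff]
    simp only [coeff_C_mul, coeff_X_pow]
    by_cases hi : i ≤ j
    · rw [if_pos hi, Finset.sum_eq_single i]
      · simp
      · intro b _ hb
        rw [if_neg (Ne.symm hb), mul_zero]
      · intro hni
        exact absurd (mem_range.2 (by omega)) hni
    · rw [if_neg hi]
      refine Finset.sum_eq_zero fun b hb => ?_
      rw [mem_range] at hb
      rw [if_neg (by omega), mul_zero]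
  have hTj : T.coeff j ≠ 0 := by
    rw [hTc, if_pos le_rfl]
    exact hjirr.ne_zero
  have hTd : T.natDegree = j := by
    refine le_antisymm ?_ (le_natDegree_of_ne_zero hTj)
    rw [natDegree_le_iff_coeff_eq_zero]
    intro i hi
    rw [hTc, if_neg (by omega)]
  have hTl : T.leadingCoeff = Q.coeff j := by
    rw [leadingCoeff, hTd, hTc, if_pos le_rfl]
  have hSr : ∀ i, ∃ c : ℚ, S.coeff i = (c : ℝ) := by
    intro i
    rw [hS, coeff_sub, hTc]
    by_cases hi : i ≤ j
    · rw [if_pos hi, sub_self]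
      exact ⟨0, by simp⟩
    · rw [if_neg hi, sub_zero]
      have := hhigh i (by omega)
      unfold Irrational at this
      push Not at this
      obtain ⟨c, hc⟩ := this
      exact ⟨c, hc.symm⟩
  obtain ⟨R, hR⟩ := exists_rat_poly S hSr
  obtain ⟨q, hq, hper⟩ := exists_period R
  refine Null.residues (fun n => (norm_e _).le) q hq fun r _ => ?_
  obtain ⟨c1, c2⟩ := comp_lin T q hq r
  have hirr : Irrational (T.comp (C (q : ℝ) * X + C (r : ℝ))).leadingCoeff := by
    rw [c2, hTl, hTd]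
    have h5 : Irrational (Q.coeff j * ((q ^ j : ℕ) : ℝ)) :=
      hjirr.mul_natCast (pow_ne_zero j (by omega))
    push_cast at h5
    exact h5
  have hnull := weyl_lead (j - 1) (T.comp (C (q : ℝ) * X + C (r : ℝ))) (by rw [c1, hTd]; omega) hirr
  refine (hnull.const_mul (e ((R.map (algebraMap ℚ ℝ)).eval (r : ℝ)))).congr fun m => ?_
  have hQ : Q = S + T := by rw [hS]; ring
  obtain ⟨k, hk⟩ := hper r m
  have e1 : Q.eval (((q * m + r : ℕ) : ℝ)) = (R.map (algebraMap ℚ ℝ)).eval (r : ℝ) + k +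
      (T.comp (C (q : ℝ) * X + C (r : ℝ))).eval (m : ℝ) := by
    rw [eval_comp]
    simp only [eval_add, eval_mul, eval_C, eval_X]
    conv_lhs => rw [hQ]
    rw [eval_add, ← hR, hk]
    push_cast
    ring
  show e (Q.eval (((q * m + r : ℕ) : ℝ))) = _
  rw [e1, e_add, e_add, e_int, mul_one]

end Pool.Agent.H34.Mar
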