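import Pool.Agent.H34.Mar.Floor

/-!
# Tori
-/

set_option autoImplicit false

open Finset Filter Topology Polynomial MeasureTheory
open scoped ComplexConjugate

namespace Pool.Agent.H34.Mar

/-- the Haar probability measure of the torus -/
noncomputable abbrev haarT (d : ℕ) : Measure (UnitAddTorus (Fin d)) :=
  Measure.pi fun _ : Fin d => (AddCircle.haarAddCircle : Measure UnitAddCircle)

/-- the sequence `y 1, y 2, ...` is equidistributed in the torus -/
def Equidistributed {d : ℕ} (y : ℕ → UnitAddTorus (Fin d)) : Prop :=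
  ∀ f : C(UnitAddTorus (Fin d), ℝ),
    Tendsto (fun N : ℕ => (1 / (N : ℝ)) * ∑ n ∈ Finset.Icc 1 N, f (y n)) atTop
      (𝓝 (∫ t, f t ∂(haarT d)))

/-- the point `s v` of the torus -/
noncomputable def lin {d : ℕ} (v : Fin d → ℝ) (s : ℝ) : UnitAddTorus (Fin d) :=
  fun i => ((s * v i : ℝ) : UnitAddCircle)

theorem mFourier_lin {d : ℕ} (k : Fin d → ℤ) (v : Fin d → ℝ) (s : ℝ) (x : UnitAddTorus (Fin d)) :
    UnitAddTorus.mFourier k (lin v s + x) =
      e ((∑ i, (k i : ℝ) * v i) * s) * UnitAddTorus.mFourier k x := by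
  have h1 : ∀ (z w : UnitAddCircle) (m : ℤ), fourier m (z + w) = fourier m z * fourier m w := by
    intro z w m
    rw [fourier_apply, fourier_apply, fourier_apply, smul_add, AddCircle.toCircle_add,
      Circle.coe_mul]
  have h2 : ∀ (T : Finset (Fin d)), e ((∑ i ∈ T, (k i : ℝ) * v i) * s) =
      ∏ i ∈ T, fourier (k i) (lin v s i) := by
    intro T
    classical
    induction T using Finset.induction_on with
    | empty => simp [e_zero]
    | insert a T ha ih =>
      rw [Finset.sum_insert ha, Finset.prod_insert ha, add_mul, e_add, ih]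
      congr 1
      unfold lin
      rw [fourier_eq_e]
      congr 1
      ring
  simp only [UnitAddTorus.mFourier, ContinuousMap.coe_mk, Pi.add_apply, h1,
    Finset.prod_mul_distrib]
  rw [h2 Finset.univ]

theorem norm_mFourier_apply {d : ℕ} (k : Fin d → ℤ) (x : UnitAddTorus (Fin d)) :
    ‖UnitAddTorus.mFourier k x‖ = 1 := by
  simp only [UnitAddTorus.mFourier, fourier_apply, ContinuousMap.coe_mk, norm_prod,
    Circle.norm_coe, Finset.prod_const_one]

theorem integral_mFourier {d : ℕ} (k : Fin d → ℤ) (hk : k ≠ 0) :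
    ∫ t, UnitAddTorus.mFourier k t ∂(haarT d) = 0 := by
  obtain ⟨i, hi⟩ := Function.ne_iff.1 hk
  have h1 := integral_fintype_prod_eq_prod (𝕜 := ℂ) (ι := Fin d) (E := fun _ => UnitAddCircle)
    (μ := fun _ => (AddCircle.haarAddCircle : Measure UnitAddCircle))
    (fun i t => fourier (k i) t)
  simp only [UnitAddTorus.mFourier, ContinuousMap.coe_mk]
  rw [h1]
  exact Finset.prod_eq_zero (Finset.mem_univ i) (integral_fourier hi)

/-- a dense integer orbit has no rational relations -/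
theorem irr_of_dense {d : ℕ} (v : Fin d → ℝ) (x : UnitAddTorus (Fin d))
    (h : DenseRange (fun m : ℤ => lin v (m : ℝ) + x)) (k : Fin d → ℤ) (hk : k ≠ 0) :
    Irrational (∑ i, (k i : ℝ) * v i) := by
  intro hrat
  obtain ⟨c, hc⟩ := hrat
  obtain ⟨j, hj⟩ := Function.ne_iff.1 hk
  -- the character `q k` is constant on the orbit
  have h1 : ∀ m : ℤ, UnitAddTorus.mFourier ((c.den : ℤ) • k) (lin v (m : ℝ) + x) =
      UnitAddTorus.mFourier ((c.den : ℤ) • k) x := by
    intro m
    rw [mFourier_lin]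
    have h2 : (∑ i, ((((c.den : ℤ) • k) i : ℤ) : ℝ) * v i) * (m : ℝ) = ((c.num * m : ℤ) : ℝ) := by
      have h3 : (∑ i, ((((c.den : ℤ) • k) i : ℤ) : ℝ) * v i) = (c.den : ℝ) * ∑ i, (k i : ℝ) * v i := by
        rw [Finset.mul_sum]
        refine Finset.sum_congr rfl fun i _ => ?_
        rw [Pi.smul_apply, smul_eq_mul]
        push_cast
        ring
      rw [h3, ← hc]
      have h4 : (c.den : ℝ) * (c : ℝ) = (c.num : ℝ) := by
        have := Rat.den_mul_eq_num c
        exact_mod_cast this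
      rw [h4]
      push_cast
      ring
    rw [h2, e_int, one_mul]
  have h2 : ∀ z : UnitAddTorus (Fin d), UnitAddTorus.mFourier ((c.den : ℤ) • k) z =
      UnitAddTorus.mFourier ((c.den : ℤ) • k) x := by
    have h3 := h.equalizer (UnitAddTorus.mFourier ((c.den : ℤ) • k)).continuous
      (continuous_const (y := UnitAddTorus.mFourier ((c.den : ℤ) • k) x))
      (funext fun m => h1 m)
    intro z
    exact congrFun h3 z
  -- evaluate at two points
  have h4 := h2 (lin (Pi.single j 1) (1 / (2 * ((c.den : ℝ) * k j))) + x)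
  rw [mFourier_lin] at h4
  have h5 : UnitAddTorus.mFourier ((c.den : ℤ) • k) x ≠ 0 := by
    intro h0
    have := norm_mFourier_apply ((c.den : ℤ) • k) x
    rw [h0, norm_zero] at this
    exact zero_ne_one this
  have h6 : e ((∑ i, ((((c.den : ℤ) • k) i : ℤ) : ℝ) * (Pi.single j 1 : Fin d → ℝ) i) *
      (1 / (2 * ((c.den : ℝ) * k j)))) = 1 := by
    have h7 : e ((∑ i, ((((c.den : ℤ) • k) i : ℤ) : ℝ) * (Pi.single j 1 : Fin d → ℝ) i) *
      (1 / (2 * ((c.den : ℝ) * k j)))) * UnitAddTorus.mFourier ((c.den : ℤ) • k) x =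
        1 * UnitAddTorus.mFourier ((c.den : ℤ) • k) x := by
      rw [h4, one_mul]
    exact mul_right_cancel₀ h5 h7
  have h8 : (∑ i, ((((c.den : ℤ) • k) i : ℤ) : ℝ) * (Pi.single j 1 : Fin d → ℝ) i) =
      (c.den : ℝ) * k j := by
    rw [Finset.sum_eq_single j]
    · rw [Pi.single_eq_same, Pi.smul_apply, smul_eq_mul]
      push_cast
      ring
    · intro b _ hb
      rw [Pi.single_eq_of_ne hb, mul_zero]
    · intro hn
      exact absurd (Finset.mem_univ j) hn
  rw [h8] at h6
  have hden : (c.den : ℝ) ≠ 0 := by exact_mod_cast c.den_nz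
  have hkj : (k j : ℝ) ≠ 0 := by exact_mod_cast hj
  have h9 : (c.den : ℝ) * k j * (1 / (2 * ((c.den : ℝ) * k j))) = 1 / 2 := by
    field_simp
  rw [h9, e_eq_one_iff] at h6
  obtain ⟨r, hr⟩ := h6
  have h10 : (1 : ℝ) = ((2 * r : ℤ) : ℝ) := by
    push_cast
    linarith
  have h11 : (1 : ℤ) = 2 * r := by exact_mod_cast h10
  omega

/-- from `Null` to averages over `1 .. N` -/
theorem equi_of_null {d : ℕ} (y : ℕ → UnitAddTorus (Fin d))
    (h : ∀ k : Fin d → ℤ, k ≠ 0 → Null (fun n => UnitAddTorus.mFourier k (y n))) :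
    Equidistributed y := by
  intro f
  set F : C(UnitAddTorus (Fin d), ℂ) :=
    ⟨fun t => ((f t : ℝ) : ℂ), Complex.continuous_ofReal.comp f.continuous⟩ with hF
  have h1 : Null (fun n => 1 * F (y n) - ∫ t, F t ∂(haarT d)) := by
    refine null_closure (fun _ => 1) (by simp) y
      (fun F => ∫ t, F t ∂(haarT d)) (fun F G => ?_) (fun a F => ?_)
      (fun F => integral_norm_le _ F) (Set.range UnitAddTorus.mFourier)
      UnitAddTorus.span_mFourier_closure_eq_top ?_ F
    · simp only [ContinuousMap.add_apply]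
      exact integral_add (integrable_cont _ F) (integrable_cont _ G)
    · simp only [ContinuousMap.smul_apply, smul_eq_mul]
      exact integral_const_mul _ _
    · rintro _ ⟨k, rfl⟩
      by_cases hk : k = 0
      · subst hk
        refine Null.of_bdd 0 fun N => ?_
        simp [UnitAddTorus.mFourier_zero]
      · refine (h k hk).congr fun n => ?_
        rw [integral_mFourier k hk, sub_zero, one_mul]
  set I : ℝ := ∫ t, f t ∂(haarT d) with hI
  have h2 : ∫ t, F t ∂(haarT d) = (I : ℂ) := integral_ofReal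
  rw [h2] at h1
  -- real form
  rw [Metric.tendsto_atTop]
  intro ε hε
  obtain ⟨N0, hN0⟩ := h1 (ε / 4) (by positivity)
  obtain ⟨N1, hN1⟩ := exists_nat_ge (4 * |f (y 0) - I| / ε)
  refine ⟨N0 + N1 + 1, fun N hN => ?_⟩
  have a1 := hN0 (N + 1) (by omega)
  have e1 : ∑ n ∈ range (N + 1), (1 * F (y n) - (I : ℂ)) =
      ((∑ n ∈ range (N + 1), (f (y n) - I) : ℝ) : ℂ) := by
    push_cast
    refine Finset.sum_congr rfl fun n _ => ?_
    rw [one_mul]
    rfl
  rw [e1, Complex.norm_real, Real.norm_eq_abs, Finset.sum_range_succ'] at a1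
  have e2 : ∑ n ∈ Finset.Icc 1 N, f (y n) = ∑ n ∈ range N, f (y (n + 1)) := by
    rw [Finset.range_eq_Ico, Finset.sum_Ico_add' (fun n => f (y n)) 0 N 1]
    rfl
  have hN1' : (N1 : ℝ) + 1 ≤ N := by
    have : N1 + 1 ≤ N := by omega
    exact_mod_cast this
  have hNpos : (0 : ℝ) < N := by
    have : (0 : ℝ) ≤ N1 := Nat.cast_nonneg _
    linarith
  have hN1'' : (1 : ℝ) ≤ N := by
    have : (0 : ℝ) ≤ N1 := Nat.cast_nonneg _
    linarith
  have a2 : |f (y 0) - I| ≤ ε / 4 * N := by
    rw [div_le_iff₀ hε] at hN1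
    nlinarith
  rw [Real.dist_eq, e2]
  have e3 : 1 / (N : ℝ) * ∑ n ∈ range N, f (y (n + 1)) - I =
      (1 / (N : ℝ)) * ∑ n ∈ range N, (f (y (n + 1)) - I) := by
    rw [Finset.sum_sub_distrib, Finset.sum_const, card_range, nsmul_eq_mul]
    field_simp
  rw [e3, abs_mul, abs_of_pos (by positivity), one_div, inv_mul_lt_iff₀ hNpos]
  have a3 : |∑ n ∈ range N, (f (y (n + 1)) - I)| ≤
      |∑ n ∈ range N, (f (y (n + 1)) - I) + (f (y 0) - I)| + |f (y 0) - I| := by
    have := abs_sub (∑ n ∈ range N, (f (y (n + 1)) - I) + (f (y 0) - I)) (f (y 0) - I)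
    rwa [add_sub_cancel_right] at this
  push_cast at a1
  nlinarith

theorem Null.shift' {z : ℕ → ℂ} (h : Null z) : Null (fun n => z (n + 1)) := by
  have h0 : (0 : ℝ) < 1 + ‖z 0‖ := by positivity
  have h0' : ((1 + ‖z 0‖ : ℝ) : ℂ) ≠ 0 := by exact_mod_cast h0.ne'
  have h1 : Null (fun n => ((1 + ‖z 0‖ : ℝ) : ℂ)⁻¹ * z (n + 1)) := by
    refine Null.shift (z := fun n => ((1 + ‖z 0‖ : ℝ) : ℂ)⁻¹ * z n) (h.const_mul _) ?_
    rw [norm_mul, norm_inv, Complex.norm_real, Real.norm_of_nonneg h0.le, inv_mul_le_iff₀ h0]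
    linarith
  refine (h1.const_mul ((1 + ‖z 0‖ : ℝ) : ℂ)).congr fun n => ?_
  rw [← mul_assoc, mul_inv_cancel₀ h0', one_mul]

/-- an equidistributed sequence has vanishing character sums -/
theorem null_of_equi {d : ℕ} (y : ℕ → UnitAddTorus (Fin d)) (h : Equidistributed y)
    (k : Fin d → ℤ) (hk : k ≠ 0) : Null (fun n => UnitAddTorus.mFourier k (y (n + 1))) := by
  have hint : Integrable (fun t => UnitAddTorus.mFourier k t) (haarT d) := integrable_cont _ _
  set fr : C(UnitAddTorus (Fin d), ℝ) :=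
    ⟨fun t => (UnitAddTorus.mFourier k t).re,
      Complex.continuous_re.comp (UnitAddTorus.mFourier k).continuous⟩ with hfr
  set fi : C(UnitAddTorus (Fin d), ℝ) :=
    ⟨fun t => (UnitAddTorus.mFourier k t).im,
      Complex.continuous_im.comp (UnitAddTorus.mFourier k).continuous⟩ with hfi
  have hr : ∫ t, fr t ∂(haarT d) = 0 := by
    have h1 : ∫ t, (UnitAddTorus.mFourier k t).re ∂(haarT d) =
        (∫ t, UnitAddTorus.mFourier k t ∂(haarT d)).re := integral_re hint
    have h2 : ∫ t, fr t ∂(haarT d) = ∫ t, (UnitAddTorus.mFourier k t).re ∂(haarT d) := rfl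
    rw [h2, h1, integral_mFourier k hk, Complex.zero_re]
  have hi : ∫ t, fi t ∂(haarT d) = 0 := by
    have h1 : ∫ t, (UnitAddTorus.mFourier k t).im ∂(haarT d) =
        (∫ t, UnitAddTorus.mFourier k t ∂(haarT d)).im := integral_im hint
    have h2 : ∫ t, fi t ∂(haarT d) = ∫ t, (UnitAddTorus.mFourier k t).im ∂(haarT d) := rfl
    rw [h2, h1, integral_mFourier k hk, Complex.zero_im]
  have tr := h fr
  have ti := h fi
  rw [hr, Metric.tendsto_atTop] at tr
  rw [hi, Metric.tendsto_atTop] at ti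
  intro ε hε
  obtain ⟨N0, hN0⟩ := tr (ε / 2) (by positivity)
  obtain ⟨N1, hN1⟩ := ti (ε / 2) (by positivity)
  refine ⟨max N0 N1 + 1, fun N hN => ?_⟩
  have hNN : max N0 N1 ≤ N := by omega
  have a0 := hN0 N (le_trans (le_max_left _ _) hNN)
  have a1 := hN1 N (le_trans (le_max_right _ _) hNN)
  have hNpos : (0 : ℝ) < N := by
    have : 0 < N := by omega
    exact_mod_cast this
  rw [Real.dist_eq, sub_zero, abs_mul, abs_of_pos (by positivity), one_div,
    inv_mul_lt_iff₀ hNpos] at a0 a1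
  have e2 : ∀ f : C(UnitAddTorus (Fin d), ℝ),
      ∑ n ∈ Finset.Icc 1 N, f (y n) = ∑ n ∈ range N, f (y (n + 1)) := by
    intro f
    rw [Finset.range_eq_Ico, Finset.sum_Ico_add' (fun n => f (y n)) 0 N 1]
    rfl
  rw [e2] at a0 a1
  have b0 : (∑ n ∈ range N, UnitAddTorus.mFourier k (y (n + 1))).re =
      ∑ n ∈ range N, fr (y (n + 1)) := by
    rw [Complex.re_sum]
    rfl
  have b1 : (∑ n ∈ range N, UnitAddTorus.mFourier k (y (n + 1))).im =
      ∑ n ∈ range N, fi (y (n + 1)) := by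
    rw [Complex.im_sum]
    rfl
  have b2 := Complex.norm_le_abs_re_add_abs_im (∑ n ∈ range N, UnitAddTorus.mFourier k (y (n + 1)))
  rw [b0, b1] at b2
  nlinarith

/-- the classification for one system -/
theorem torus_iff (P : ℝ[X]) (hP : 0 < P.natDegree) {d : ℕ} (v : Fin d → ℝ)
    (x : UnitAddTorus (Fin d)) (hd : DenseRange (fun m : ℤ => lin v (m : ℝ) + x)) :
    Equidistributed (fun n : ℕ => lin v (⌊P.eval (n : ℝ)⌋ : ℝ) + x) ↔
      ((∀ j, 1 ≤ j → ∃ c : ℚ, P.coeff j = (c : ℝ)) ∨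
        ∀ k : Fin d → ℤ, k ≠ 0 → ∀ m : ℤ,
          ¬ ∀ j, 1 ≤ j → ∃ c : ℚ, (C ((∑ i, (k i : ℝ) * v i) + (m : ℝ)) * P).coeff j = (c : ℝ)) := by
  constructor
  · intro heq
    by_contra hcon
    push Not at hcon
    obtain ⟨h1, k, hk, m, hm⟩ := hcon
    have hirr : ¬ ∀ j, 1 ≤ j → ∃ c : ℚ, P.coeff j = (c : ℝ) := by
      push Not
      exact h1
    have hg := irr_of_dense v x hd k hk
    obtain ⟨q, hq, I, hI, hn⟩ := bad_floor P hirr _ (hg.add_intCast m) hm
    have hqk : ((q : ℤ) • k) ≠ 0 := by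
      have : (q : ℤ) ≠ 0 := by
        have : q ≠ 0 := by omega
        exact_mod_cast this
      exact smul_ne_zero this hk
    set M : ℂ := UnitAddTorus.mFourier ((q : ℤ) • k) x with hM
    have hM0 : M ≠ 0 := by
      intro h0
      have := norm_mFourier_apply ((q : ℤ) • k) x
      rw [← hM, h0, norm_zero] at this
      exact zero_ne_one this
    have h2 := (hn.shift').const_mul M
    have h3 := (null_of_equi _ heq ((q : ℤ) • k) hqk).const_mul (-1)
    have h4 : Null (fun _ => -(M * I)) := by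
      refine (h2.add h3).congr fun n => ?_
      have e1 : UnitAddTorus.mFourier ((q : ℤ) • k)
          (lin v (⌊P.eval (((n + 1 : ℕ)) : ℝ)⌋ : ℝ) + x) =
          e ((q * ((∑ i, (k i : ℝ) * v i) + (m : ℝ))) * (⌊P.eval (((n + 1 : ℕ)) : ℝ)⌋ : ℝ)) * M := by
        rw [mFourier_lin]
        congr 1
        have h5 : (∑ i, ((((q : ℤ) • k) i : ℤ) : ℝ) * v i) = (q : ℝ) * ∑ i, (k i : ℝ) * v i := by
          rw [Finset.mul_sum]
          refine Finset.sum_congr rfl fun i _ => ?_
          rw [Pi.smul_apply, smul_eq_mul]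
          push_cast
          ring
        rw [h5]
        have h6 : (q : ℝ) * ((∑ i, (k i : ℝ) * v i) + (m : ℝ)) * (⌊P.eval (((n + 1 : ℕ)) : ℝ)⌋ : ℝ) =
            (q : ℝ) * (∑ i, (k i : ℝ) * v i) * (⌊P.eval (((n + 1 : ℕ)) : ℝ)⌋ : ℝ) +
              (((q : ℤ) * m * ⌊P.eval (((n + 1 : ℕ)) : ℝ)⌋ : ℤ) : ℝ) := by
          push_cast
          ring
        rw [h6, e_add, e_int, mul_one]
      rw [e1]
      ring
    have h5 : 0 < ‖M * I‖ := norm_pos_iff.2 (mul_ne_zero hM0 hI)
    obtain ⟨N0, hN0⟩ := h4 (‖M * I‖ / 2) (by positivity)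
    have h6 := hN0 (N0 + 1) (by omega)
    rw [Finset.sum_const, card_range, nsmul_eq_mul, norm_mul, norm_neg, Complex.norm_natCast] at h6
    have h7 : (0 : ℝ) < ((N0 + 1 : ℕ) : ℝ) := by positivity
    nlinarith
  · intro hor
    refine equi_of_null _ fun k hk => ?_
    have hg := irr_of_dense v x hd k hk
    have h1 : Null (fun n : ℕ => e ((∑ i, (k i : ℝ) * v i) * (⌊P.eval (n : ℝ)⌋ : ℝ))) := by
      by_cases hrat : ∀ j, 1 ≤ j → ∃ c : ℚ, P.coeff j = (c : ℝ)
      · exact null_floor_rat P hP hrat _ hg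
      · rcases hor with h | h
        · exact absurd h hrat
        · exact null_floor_irr P hrat _ (fun m => h k hk m)
    refine (h1.const_mul (UnitAddTorus.mFourier k x)).congr fun n => ?_
    rw [mFourier_lin, mul_comm]

/-- the classification over all tori -/
theorem tori_iff (P : ℝ[X]) (hP : 0 < P.natDegree) :
    (∀ (d : ℕ) (v : Fin d → ℝ) (x : UnitAddTorus (Fin d)),
      DenseRange (fun m : ℤ => lin v (m : ℝ) + x) →
        Equidistributed (fun n : ℕ => lin v (⌊P.eval (n : ℝ)⌋ : ℝ) + x)) ↔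
      ∀ a : ℝ, Irrational a → ¬ ∀ j, 1 ≤ j → ∃ c : ℚ, (C a * P).coeff j = (c : ℝ) := by
  constructor
  · intro h a ha hrat
    have hl := leadingCoeff_ne P hP
    have hdense : DenseRange (fun m : ℤ => lin (fun _ : Fin 1 => a) (m : ℝ) + 0) := by
      have h1 : DenseRange (fun m : ℤ => m • (a : UnitAddCircle)) := by
        have h2 := (AddCircle.denseRange_zsmul_coe_iff (a := a) (p := 1)).2 (by rwa [div_one])
        exact h2
      intro z
      rw [Metric.mem_closure_range_iff]
      intro ε hε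
      obtain ⟨m, hm⟩ := Metric.mem_closure_range_iff.1 (h1 (z 0)) ε hε
      refine ⟨m, ?_⟩
      rw [dist_pi_lt_iff hε]
      intro i
      have hi : i = 0 := Subsingleton.elim _ _
      subst hi
      have h3 : (lin (fun _ : Fin 1 => a) (m : ℝ) + 0 : UnitAddTorus (Fin 1)) 0 =
          m • (a : UnitAddCircle) := by
        rw [add_zero]
        unfold lin
        rw [← AddCircle.coe_zsmul, zsmul_eq_mul]
      rw [h3]
      exact hm
    have h1 := (torus_iff P hP (fun _ : Fin 1 => a) 0 hdense).1 (h 1 _ 0 hdense)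
    rcases h1 with h2 | h2
    · obtain ⟨c, hc⟩ := h2 P.natDegree hP
      obtain ⟨c', hc'⟩ := hrat P.natDegree hP
      rw [coeff_C_mul, hc] at hc'
      have hc0 : c ≠ 0 := by
        intro h0
        rw [h0, Rat.cast_zero] at hc
        exact hl hc
      exact (ha.mul_ratCast hc0) ⟨c', hc'.symm⟩
    · refine h2 (fun _ => 1) (fun h0 => ?_) 0 ?_
      · have := congrFun h0 0
        exact one_ne_zero this
      · have h3 : (∑ i : Fin 1, (((fun _ => 1 : Fin 1 → ℤ) i : ℤ) : ℝ) * a) + ((0 : ℤ) : ℝ) = a := by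
          simp
        rw [h3]
        exact hrat
  · intro h d v x hd
    refine (torus_iff P hP v x hd).2 (Or.inr fun k hk m => ?_)
    exact h _ ((irr_of_dense v x hd k hk).add_intCast m)

end Pool.Agent.H34.Mar
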