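import Mathlib
import Pool.Agent.H10.RP.Carry

/-!
# Weyl sums of real polynomials (qualitative), via van der Corput
-/

set_option autoImplicit false

open Finset Filter Topology Polynomial
open scoped ComplexConjugate

namespace Pool.Agent.H34.Mar

noncomputable def e (x : ℝ) : ℂ := Complex.exp ((2 * Real.pi * x : ℝ) * Complex.I)

theorem norm_e (x : ℝ) : ‖e x‖ = 1 := Complex.norm_exp_ofReal_mul_I _

theorem e_add (x y : ℝ) : e (x + y) = e x * e y := by
  unfold e
  rw [← Complex.exp_add]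
  congr 1
  push_cast
  ring

theorem e_zero : e 0 = 1 := by simp [e]

theorem e_neg (x : ℝ) : e (-x) = conj (e x) := by
  unfold e
  rw [← Complex.exp_conj]
  congr 1
  rw [map_mul, Complex.conj_ofReal, Complex.conj_I]
  push_cast
  ring

theorem e_int (k : ℤ) : e k = 1 := by
  unfold e
  rw [Complex.exp_eq_one_iff]
  refine ⟨k, ?_⟩
  push_cast
  ring

theorem e_eq_one_iff (x : ℝ) : e x = 1 ↔ ∃ k : ℤ, x = k := by
  constructor
  · intro h
    unfold e at h
    rw [Complex.exp_eq_one_iff] at h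
    obtain ⟨k, hk⟩ := h
    refine ⟨k, ?_⟩
    have h1 : ((x : ℝ) : ℂ) = (k : ℂ) := by
      have h2 : (2 * (Real.pi : ℂ) * Complex.I) * (x : ℂ) = (2 * (Real.pi : ℂ) * Complex.I) * k := by
        push_cast at hk
        linear_combination hk
      have h3 : (2 * (Real.pi : ℂ) * Complex.I) ≠ 0 := Complex.two_pi_I_ne_zero
      exact mul_left_cancel₀ h3 h2
    exact_mod_cast h1
  · rintro ⟨k, rfl⟩
    exact e_int k

/-- averages tend to zero -/
def Null (z : ℕ → ℂ) : Prop := ∀ ε : ℝ, 0 < ε → ∃ N0 : ℕ, ∀ N ≥ N0, ‖∑ n ∈ range N, z n‖ ≤ ε * N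

theorem Null.congr {z w : ℕ → ℂ} (h : Null z) (hw : ∀ n, w n = z n) : Null w := by
  have : w = z := funext hw
  rw [this]
  exact h

theorem Null.const_mul {z : ℕ → ℂ} (h : Null z) (c : ℂ) : Null (fun n => c * z n) := by
  intro ε hε
  obtain ⟨N0, hN⟩ := h (ε / (‖c‖ + 1)) (by positivity)
  refine ⟨N0, fun N hNN => ?_⟩
  rw [← Finset.mul_sum, norm_mul]
  have h1 := hN N hNN
  have h2 : ‖c‖ * ‖∑ n ∈ range N, z n‖ ≤ ‖c‖ * (ε / (‖c‖ + 1) * N) :=
    mul_le_mul_of_nonneg_left h1 (norm_nonneg _)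
  refine h2.trans ?_
  have h3 : ‖c‖ / (‖c‖ + 1) ≤ 1 := by
    rw [div_le_one (by positivity)]
    linarith
  have h4 : ‖c‖ * (ε / (‖c‖ + 1) * N) = (‖c‖ / (‖c‖ + 1)) * (ε * N) := by
    field_simp
  rw [h4]
  have h5 : 0 ≤ ε * (N : ℝ) := by positivity
  nlinarith

theorem Null.add {z w : ℕ → ℂ} (hz : Null z) (hw : Null w) : Null (fun n => z n + w n) := by
  intro ε hε
  obtain ⟨N0, h0⟩ := hz (ε / 2) (by positivity)
  obtain ⟨N1, h1⟩ := hw (ε / 2) (by positivity)
  refine ⟨max N0 N1, fun N hN => ?_⟩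
  rw [Finset.sum_add_distrib]
  have a := h0 N (le_trans (le_max_left _ _) hN)
  have b := h1 N (le_trans (le_max_right _ _) hN)
  have c := norm_add_le (∑ n ∈ range N, z n) (∑ n ∈ range N, w n)
  have d : ε / 2 * (N : ℝ) + ε / 2 * N = ε * N := by ring
  linarith

theorem Null.of_bdd {z : ℕ → ℂ} (C : ℝ) (h : ∀ N, ‖∑ n ∈ range N, z n‖ ≤ C) : Null z := by
  intro ε hε
  obtain ⟨N0, hN0⟩ := exists_nat_ge (C / ε)
  refine ⟨N0, fun N hN => (h N).trans ?_⟩
  have h1 : (N0 : ℝ) ≤ N := by exact_mod_cast hN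
  have h2 : C / ε ≤ N := hN0.trans h1
  rw [div_le_iff₀ hε] at h2
  linarith

/-- van der Corput -/
theorem Null.vdc {z : ℕ → ℂ} (hz : ∀ n, ‖z n‖ ≤ 1)
    (h : ∀ r : ℕ, 1 ≤ r → Null (fun n => z (n + r) * conj (z n))) : Null z := by
  intro ε hε
  obtain ⟨H, hH⟩ := exists_nat_ge (8 / ε ^ 2)
  set H1 := H + 1 with hH1
  have hH1p : 1 ≤ H1 := by omega
  have hcH : 8 / ε ^ 2 ≤ (H1 : ℝ) := by
    rw [hH1]
    push_cast
    linarith
  have hH0 : (0 : ℝ) < H1 := by exact_mod_cast hH1p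
  -- uniform N0
  have hex : ∃ N0 : ℕ, ∀ r ∈ Ico 1 H1, ∀ N ≥ N0,
      ‖∑ n ∈ range N, z (n + r) * conj (z n)‖ ≤ 1 / (2 * H1) * N := by
    have h2 : ∀ r ∈ Ico 1 H1, ∃ N0 : ℕ, ∀ N ≥ N0,
      ‖∑ n ∈ range N, z (n + r) * conj (z n)‖ ≤ 1 / (2 * H1) * N := by
      intro r hr
      rw [mem_Ico] at hr
      exact h r hr.1 _ (by positivity)
    choose! f hf using h2
    refine ⟨(Ico 1 H1).sup f, fun r hr N hN => hf r hr N ?_⟩
    exact le_trans (Finset.le_sup hr) hN
  obtain ⟨N0, hN0⟩ := hex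
  refine ⟨N0 + H1, fun N hN => ?_⟩
  have hv := Pool.Agent.H10.RP.vdc_family (({()} : Finset Unit)) (fun _ n => z n) N H1 hH1p
  simp only [Finset.sum_singleton] at hv
  have hNH : (H1 : ℝ) ≤ N := by
    have : H1 ≤ N := by omega
    exact_mod_cast this
  have hN0' : (0 : ℝ) < N := lt_of_lt_of_le hH0 hNH
  have a1 : ∑ n ∈ range N, ‖z n‖ ^ 2 ≤ N := by
    calc ∑ n ∈ range N, ‖z n‖ ^ 2 ≤ ∑ n ∈ range N, (1 : ℝ) := by
          refine Finset.sum_le_sum fun n _ => ?_
          have := hz n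
          have h0 := norm_nonneg (z n)
          nlinarith
      _ = N := by simp
  have a2 : ∑ r ∈ Ico 1 H1, ‖∑ n ∈ range (N - r), z (n + r) * conj (z n)‖ ≤ N / 2 := by
    calc ∑ r ∈ Ico 1 H1, ‖∑ n ∈ range (N - r), z (n + r) * conj (z n)‖
        ≤ ∑ r ∈ Ico 1 H1, (1 / (2 * H1) * N : ℝ) := by
          refine Finset.sum_le_sum fun r hr => ?_
          have hr2 := mem_Ico.1 hr
          refine (hN0 r hr (N - r) (by omega)).trans ?_
          refine mul_le_mul_of_nonneg_left ?_ (by positivity)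
          exact_mod_cast Nat.sub_le N r
      _ ≤ N / 2 := by
          rw [Finset.sum_const, Nat.card_Ico, nsmul_eq_mul]
          have : ((H1 - 1 : ℕ) : ℝ) ≤ H1 := by exact_mod_cast Nat.sub_le H1 1
          have h5 : (H1 : ℝ) * (1 / (2 * H1) * N) = N / 2 := by
            field_simp
          rw [← h5]
          refine mul_le_mul_of_nonneg_right this (by positivity)
  have a3 : ‖∑ n ∈ range N, z n‖ ^ 2 ≤ ((N : ℝ) + H1) / H1 * (N + 2 * (N / 2)) := by
    refine hv.trans ?_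
    refine mul_le_mul_of_nonneg_left ?_ (by positivity)
    linarith
  have a4 : ((N : ℝ) + H1) / H1 * (N + 2 * (N / 2)) ≤ (ε * N) ^ 2 := by
    have b1 : ((N : ℝ) + H1) / H1 ≤ 2 * N / H1 := by
      rw [div_le_div_iff_of_pos_right hH0]
      linarith
    have b2 : ((N : ℝ) + H1) / H1 * (N + 2 * (N / 2)) ≤ 2 * N / H1 * (2 * N) := by
      have : (N : ℝ) + 2 * (N / 2) = 2 * N := by ring
      rw [this]
      exact mul_le_mul_of_nonneg_right b1 (by positivity)
    refine b2.trans ?_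
    have b3 : 8 ≤ ε ^ 2 * H1 := by
      rw [div_le_iff₀ (by positivity)] at hcH
      linarith
    have b4 : 2 * (N : ℝ) / H1 * (2 * N) = 4 * N ^ 2 / H1 := by ring
    rw [b4, div_le_iff₀ hH0]
    have b5 : (ε * N) ^ 2 * H1 = (ε ^ 2 * H1) * N ^ 2 := by ring
    rw [b5]
    have b6 : (0 : ℝ) ≤ (N : ℝ) ^ 2 := by positivity
    nlinarith
  have a5 := a3.trans a4
  exact (sq_le_sq₀ (norm_nonneg _) (by positivity)).1 a5

theorem sum_mul_split (z : ℕ → ℂ) (q M : ℕ) :
    ∑ n ∈ range (q * M), z n = ∑ r ∈ range q, ∑ m ∈ range M, z (q * m + r) := by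
  induction M with
  | zero => simp
  | succ M ih =>
    rw [Nat.mul_succ, Finset.sum_range_add, ih, ← Finset.sum_add_distrib]
    refine Finset.sum_congr rfl fun r _ => ?_
    rw [Finset.sum_range_succ]

theorem Null.residues {z : ℕ → ℂ} (hz : ∀ n, ‖z n‖ ≤ 1) (q : ℕ) (hq : 1 ≤ q)
    (h : ∀ r < q, Null (fun m => z (q * m + r))) : Null z := by
  intro ε hε
  have hex : ∃ N0 : ℕ, ∀ r ∈ range q, ∀ N ≥ N0, ‖∑ m ∈ range N, z (q * m + r)‖ ≤ ε / 2 * N := by
    have h2 : ∀ r ∈ range q, ∃ N0 : ℕ, ∀ N ≥ N0, ‖∑ m ∈ range N, z (q * m + r)‖ ≤ ε / 2 * N := by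
      intro r hr
      exact h r (mem_range.1 hr) _ (by positivity)
    choose! f hf using h2
    refine ⟨(range q).sup f, fun r hr N hN => hf r hr N ?_⟩
    exact le_trans (Finset.le_sup hr) hN
  obtain ⟨N0, hN0⟩ := hex
  obtain ⟨N1, hN1⟩ := exists_nat_ge (2 * q / ε)
  refine ⟨q * N0 + q + N1, fun N hN => ?_⟩
  set M := N / q with hM
  have hs : N = q * M + N % q := (Nat.div_add_mod N q).symm
  have hlt : N % q < q := Nat.mod_lt _ (by omega)
  have hMN0 : N0 ≤ M := by
    by_contra hcon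
    push Not at hcon
    have : q * M + q ≤ q * N0 := by
      have : M + 1 ≤ N0 := hcon
      calc q * M + q = q * (M + 1) := by ring
        _ ≤ q * N0 := Nat.mul_le_mul_left q this
    omega
  have e1 : ∑ n ∈ range N, z n = ∑ n ∈ range (q * M), z n + ∑ i ∈ range (N % q), z (q * M + i) := by
    conv_lhs => rw [hs]
    rw [Finset.sum_range_add]
  rw [e1, sum_mul_split]
  have b1 : ‖∑ r ∈ range q, ∑ m ∈ range M, z (q * m + r)‖ ≤ ε / 2 * N := by
    calc ‖∑ r ∈ range q, ∑ m ∈ range M, z (q * m + r)‖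
        ≤ ∑ r ∈ range q, ‖∑ m ∈ range M, z (q * m + r)‖ := norm_sum_le _ _
      _ ≤ ∑ r ∈ range q, (ε / 2 * M) := Finset.sum_le_sum fun r hr => hN0 r hr M hMN0
      _ = ε / 2 * (q * M : ℕ) := by
          rw [Finset.sum_const, card_range, nsmul_eq_mul]
          push_cast
          ring
      _ ≤ ε / 2 * N := by
          refine mul_le_mul_of_nonneg_left ?_ (by positivity)
          exact_mod_cast (by omega : q * M ≤ N)
  have b2 : ‖∑ i ∈ range (N % q), z (q * M + i)‖ ≤ q := by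
    calc ‖∑ i ∈ range (N % q), z (q * M + i)‖ ≤ ∑ i ∈ range (N % q), ‖z (q * M + i)‖ :=
          norm_sum_le _ _
      _ ≤ ∑ i ∈ range (N % q), (1 : ℝ) := Finset.sum_le_sum fun i _ => hz _
      _ = (N % q : ℕ) := by simp
      _ ≤ q := by exact_mod_cast hlt.le
  have b3 : (q : ℝ) ≤ ε / 2 * N := by
    have c1 : (N1 : ℝ) ≤ N := by exact_mod_cast (by omega : N1 ≤ N)
    have c2 : 2 * (q : ℝ) / ε ≤ N := hN1.trans c1
    rw [div_le_iff₀ hε] at c2
    linarith
  have b4 := norm_add_le (∑ r ∈ range q, ∑ m ∈ range M, z (q * m + r))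
    (∑ i ∈ range (N % q), z (q * M + i))
  have b5 : ε / 2 * (N : ℝ) + ε / 2 * N = ε * N := by ring
  linarith

/-- linear phases -/
theorem null_linear {a : ℝ} (ha : Irrational a) (b : ℝ) : Null (fun n => e (a * n + b)) := by
  have h1 : e a ≠ 1 := by
    intro h
    rw [e_eq_one_iff] at h
    obtain ⟨k, hk⟩ := h
    exact ha.ne_int k hk
  have hne : e a - 1 ≠ 0 := sub_ne_zero.2 h1
  have hpow : ∀ n : ℕ, e (a * n + b) = e b * (e a) ^ n := by
    intro n
    induction n with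
    | zero => simp
    | succ n ih =>
      have : a * ((n + 1 : ℕ) : ℝ) + b = (a * n + b) + a := by push_cast; ring
      rw [this, e_add, ih, pow_succ]
      ring
  refine Null.of_bdd (2 / ‖e a - 1‖) fun N => ?_
  have h2 : ∑ n ∈ range N, e (a * n + b) = e b * (((e a) ^ N - 1) / (e a - 1)) := by
    rw [← geom_sum_eq h1, Finset.mul_sum]
    exact Finset.sum_congr rfl fun n _ => hpow n
  rw [h2, norm_mul, norm_e, one_mul, norm_div]
  refine div_le_div_of_nonneg_right ?_ (norm_nonneg _)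
  calc ‖(e a) ^ N - 1‖ ≤ ‖(e a) ^ N‖ + ‖(1 : ℂ)‖ := norm_sub_le _ _
    _ = 2 := by rw [norm_pow, norm_e]; norm_num

/-- the difference polynomial -/
theorem diff_natDegree (k : ℕ) (Q : ℝ[X]) (hQ : Q.natDegree = k + 1) (r : ℕ) (hr : 1 ≤ r) :
    (taylor (r : ℝ) Q - Q).natDegree = k ∧
      (taylor (r : ℝ) Q - Q).leadingCoeff = ((k + 1) * r : ℕ) * Q.leadingCoeff := by
  have hQ0 : Q ≠ 0 := by
    intro h
    rw [h] at hQ
    simp at hQ
  have hlc : Q.leadingCoeff ≠ 0 := leadingCoeff_ne_zero.2 hQ0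
  have hc : (taylor (r : ℝ) Q - Q).coeff k = ((k + 1) * r : ℕ) * Q.leadingCoeff := by
    rw [coeff_sub, taylor_coeff]
    have h1 : (hasseDeriv k Q).natDegree ≤ 1 := by
      refine (natDegree_hasseDeriv_le Q k).trans ?_
      omega
    rw [eval_eq_sum_range' (n := 2) (by omega)]
    rw [Finset.sum_range_succ, Finset.sum_range_one, hasseDeriv_coeff, hasseDeriv_coeff]
    rw [leadingCoeff, hQ]
    have h2 : (0 + k).choose k = 1 := by rw [zero_add, Nat.choose_self]
    have h3 : (1 + k).choose k = k + 1 := by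
      rw [add_comm, Nat.choose_succ_self_right]
    rw [h2, h3, zero_add, add_comm 1 k]
    push_cast
    ring
  have hdeg : (taylor (r : ℝ) Q - Q).degree < Q.degree := by
    have h1 : (taylor (r : ℝ) Q).degree = Q.degree := degree_taylor _ _
    have h2 : (taylor (r : ℝ) Q).leadingCoeff = Q.leadingCoeff := leadingCoeff_taylor _ _
    have h3 := degree_sub_lt_left h1 (by
      intro h
      rw [h] at h1
      rw [degree_zero] at h1
      exact hQ0 (degree_eq_bot.1 h1.symm)) h2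
    rwa [h1] at h3
  have hne : (taylor (r : ℝ) Q - Q).coeff k ≠ 0 := by
    rw [hc]
    refine mul_ne_zero ?_ hlc
    have : (k + 1) * r ≠ 0 := by positivity
    exact_mod_cast this
  have hnd : (taylor (r : ℝ) Q - Q).natDegree = k := by
    have h1 : k ≤ (taylor (r : ℝ) Q - Q).natDegree := le_natDegree_of_ne_zero hne
    have h2 : (taylor (r : ℝ) Q - Q).natDegree < k + 1 := by
      rw [← hQ]
      refine natDegree_lt_natDegree ?_ hdeg
      intro h
      rw [h] at hne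
      simp at hne
    omega
  exact ⟨hnd, by rw [leadingCoeff, hnd, hc]⟩

/-- Weyl, irrational leading coefficient -/
theorem weyl_lead (k : ℕ) : ∀ Q : ℝ[X], Q.natDegree = k + 1 → Irrational Q.leadingCoeff →
    Null (fun n => e (Q.eval (n : ℝ))) := by
  induction k with
  | zero =>
    intro Q hQ hl
    have h1 : ∀ n : ℕ, Q.eval (n : ℝ) = Q.leadingCoeff * n + Q.coeff 0 := by
      intro n
      have := eval_eq_sum_range' (p := Q) (n := 2) (by omega) (n : ℝ)
      rw [this, Finset.sum_range_succ, Finset.sum_range_one, leadingCoeff, hQ]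
      simp
      ring
    refine (null_linear hl (Q.coeff 0)).congr fun n => ?_
    rw [h1]
  | succ k ih =>
    intro Q hQ hl
    refine Null.vdc (fun n => (norm_e _).le) fun r hr => ?_
    obtain ⟨h1, h2⟩ := diff_natDegree (k + 1) Q hQ r hr
    have h3 : Irrational (taylor (r : ℝ) Q - Q).leadingCoeff := by
      rw [h2]
      exact hl.natCast_mul (by positivity)
    refine (ih _ h1 h3).congr fun n => ?_
    rw [eval_sub, taylor_eval, ← e_neg, ← e_add]
    congr 1
    push_cast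
    ring

end Pool.Agent.H34.Mar
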